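import Pool.Agent.H34.GZ.Targets2
import Pool.Agent.H34.GM.HAC

/-!
# Board gz (MP_52e316_nt), row EXD: strict measurable fundamental domains of the integer units
-/

set_option autoImplicit false

namespace Pool.Agent.H43.GZ

open MeasureTheory Pool.Agent.H34.GM Pool.Agent.H34.GZ

theorem xz_mul {m : ℕ} (α β : ZM m) : cR (α * β) = cR α * cR β := by
  have h := Matrix.map_mul (f := Int.castRingHom ℝ) (M := β) (L := α)
  exact h

theorem xz_one {m : ℕ} : cR (1 : ZM m) = 1 := by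
  ext i j
  simp [cR, Matrix.one_apply]

theorem xz_det {m : ℕ} (α : ZM m) : (cR α).det = ((α.det : ℤ) : ℝ) := by
  have h := (Int.castRingHom ℝ).map_det α
  exact h.symm

theorem xz_unit {m : ℕ} {γ : ZM m} (hγ : IsUnit γ) : |(cR γ).det| = 1 := by
  rw [xz_det, ← Int.cast_abs]
  have h1 : IsUnit γ.det := (Matrix.isUnit_iff_isUnit_det _).1 hγ
  rw [Int.abs_eq_natAbs, Int.isUnit_iff_natAbs_eq.1 h1]
  norm_num

theorem xz_entry {m : ℕ} (z : Mat m) (i j : Fin m) : |z i j| ≤ sz z := by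
  unfold sz
  have h1 := norm_le_pi_norm (fun i j => z i j : V m) i
  have h2 := norm_le_pi_norm ((fun i j => z i j : V m) i) j
  simpa using h2.trans h1

theorem xz_shell {m : ℕ} (hm : 1 ≤ m) {z : V m} (hz : z ∈ Shell m) : (mt z).det ≠ 0 := by
  intro h
  have h1 : 1 ≤ aN (mt z) := hz.1
  unfold aN at h1
  rw [h, abs_zero, Real.zero_rpow (by positivity)] at h1
  linarith

theorem pf_EXD : T_MSR → T_EXD := by
  classical
  intro hMSR m hm
  obtain ⟨hinv, hdm, ham, hsm, -, hSh, -, -⟩ := hMSR.1 m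
  have hcnt : Countable (ZM m) := inferInstanceAs (Countable (Fin m → Fin m → ℤ))
  have hm0 : (0 : ℝ) < m := by exact_mod_cast hm
  -- the action keeps the shell
  have haN : ∀ γ : ZM m, IsUnit γ → ∀ z : V m, aN (mt (hac_lm (cR γ) z)) = aN (mt z) := by
    intro γ hγ z
    have : (mt (hac_lm (cR γ) z)) = cR γ * mt z := rfl
    unfold aN
    rw [this, Matrix.det_mul, abs_mul, xz_unit hγ, one_mul]
  have hcomp : ∀ (γ δ : ZM m) (z : V m), hac_lm (cR γ) (hac_lm (cR δ) z) =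
      hac_lm (cR (γ * δ)) z := by
    intro γ δ z
    funext i j
    change (cR γ * (cR δ * mt z)) i j = (cR (γ * δ) * mt z) i j
    rw [xz_mul, Matrix.mul_assoc]
  -- the small sets
  let s : ℕ → V m := TopologicalSpace.denseSeq (V m)
  let ε : ℕ → ℝ := fun N => 1 / (4 * m * (N + 1))
  have hε : ∀ N, 0 < ε N := fun N => by positivity
  let W : ℕ → Set (V m) := fun N => {y | sz ((mt y)⁻¹) ≤ (N : ℝ) + 1}
  have hWm : ∀ N, MeasurableSet (W N) := by
    intro N
    have h1 : Measurable fun y : V m => sz ((mt y)⁻¹) := hsm.comp hinv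
    exact measurableSet_le h1 measurable_const
  let U : ℕ → Set (V m) := fun k => (Shell m ∩ Metric.ball (s k.unpair.1) (ε k.unpair.2)) ∩
    W k.unpair.2
  have hUm : ∀ k, MeasurableSet (U k) := fun k =>
    (hSh.inter Metric.isOpen_ball.measurableSet).inter (hWm _)
  have hUcov : ∀ z ∈ Shell m, ∃ k, z ∈ U k := by
    intro z hz
    obtain ⟨N, hN⟩ := exists_nat_gt (sz ((mt z)⁻¹))
    obtain ⟨k, hk⟩ := (TopologicalSpace.denseRange_denseSeq (V m)).exists_dist_lt z (hε N)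
    refine ⟨Nat.pair k N, ⟨hz, ?_⟩, ?_⟩
    · rw [Nat.unpair_pair]
      exact Metric.mem_ball.2 hk
    · rw [Nat.unpair_pair]
      change sz ((mt z)⁻¹) ≤ (N : ℝ) + 1
      linarith
  have hUfree : ∀ k, ∀ z ∈ U k, ∀ δ : ZM m, hac_lm (cR δ) z ∈ U k → δ = 1 := by
    intro k z hz δ hz'
    have hzd : (mt z).det ≠ 0 := xz_shell hm hz.1.1
    have h5 : sz ((cR δ - 1) * mt z) ≤ 2 * ε k.unpair.2 := by
      have h6 : ((fun i j => ((cR δ - 1) * mt z) i j) : V m) = hac_lm (cR δ) z - z := by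
        funext i j
        change ((cR δ - 1) * mt z) i j = (cR δ * mt z) i j - z i j
        rw [sub_mul, one_mul]
        rfl
      unfold sz
      rw [h6, ← dist_eq_norm]
      have h7 := Metric.mem_ball.1 hz.1.2
      have h8 := Metric.mem_ball.1 hz'.1.2
      have h9 := dist_triangle_right (hac_lm (cR δ) z) z (s k.unpair.1)
      linarith
    have h6 : cR δ - 1 = ((cR δ - 1) * mt z) * (mt z)⁻¹ := by
      rw [Matrix.mul_assoc, Matrix.mul_nonsing_inv _ hzd.isUnit, Matrix.mul_one]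
    have hw : sz ((mt z)⁻¹) ≤ (k.unpair.2 : ℝ) + 1 := hz.2
    have hs0 : 0 ≤ sz ((mt z)⁻¹) := norm_nonneg _
    ext i j
    have h7 : |(cR δ - 1) i j| ≤ 1 / 2 := by
      rw [h6, Matrix.mul_apply]
      refine (Finset.abs_sum_le_sum_abs _ _).trans ?_
      have h8 : ∀ l ∈ (Finset.univ : Finset (Fin m)),
          |((cR δ - 1) * mt z) i l * (mt z)⁻¹ l j| ≤ (2 * ε k.unpair.2) * (k.unpair.2 + 1) := by
        intro l _
        rw [abs_mul]
        have h9 := (xz_entry ((cR δ - 1) * mt z) i l).trans h5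
        have h10 := (xz_entry ((mt z)⁻¹) l j).trans hw
        exact mul_le_mul h9 h10 (abs_nonneg _) (by have := hε k.unpair.2; positivity)
      refine (Finset.sum_le_sum h8).trans ?_
      rw [Finset.sum_const, Finset.card_univ, Fintype.card_fin, nsmul_eq_mul]
      have h11 : (0 : ℝ) < (k.unpair.2 : ℝ) + 1 := by positivity
      apply le_of_eq
      change (m : ℝ) * (2 * (1 / (4 * m * ((k.unpair.2 : ℝ) + 1))) * (k.unpair.2 + 1)) = 1 / 2
      field_simp
      norm_num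
    have h8 : (cR δ - 1) i j = ((δ i j - (1 : ZM m) i j : ℤ) : ℝ) := by
      rw [Matrix.sub_apply]
      push_cast
      congr 1
      rw [Matrix.one_apply, Matrix.one_apply]
      split_ifs <;> simp
    rw [h8, ← Int.cast_abs] at h7
    have h9 : |δ i j - (1 : ZM m) i j| < 1 := by
      have : ((|δ i j - (1 : ZM m) i j| : ℤ) : ℝ) < 1 := by linarith
      exact_mod_cast this
    have h10 := Int.abs_lt_one_iff.1 h9
    linarith
  -- the domain
  let G : ℕ → Set (V m) := fun j => ⋃ γ : {γ : ZM m // IsUnit γ}, hac_lm (cR γ.1) ⁻¹' (U j)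
  have hGm : ∀ j, MeasurableSet (G j) := fun j =>
    MeasurableSet.iUnion fun γ => hac_meas_lm _ (hUm j)
  have hGmem : ∀ j z, z ∈ G j ↔ ∃ γ : ZM m, IsUnit γ ∧ hac_lm (cR γ) z ∈ U j := by
    intro j z
    simp only [G, Set.mem_iUnion, Set.mem_preimage, Subtype.exists, exists_prop]
  let D : Set (V m) := ⋃ k, (U k \ ⋃ j ∈ Finset.range k, G j)
  have hDmem : ∀ z, z ∈ D ↔ ∃ k, z ∈ U k ∧ ∀ j < k, z ∉ G j := by
    intro z
    simp only [D, Set.mem_iUnion, Set.mem_sdiff, Finset.mem_range, exists_prop, not_exists, not_and]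
  refine ⟨D, ?_, ?_, ?_⟩
  · refine MeasurableSet.iUnion fun k => (hUm k).diff ?_
    exact Finset.measurableSet_biUnion _ fun j _ => hGm j
  · intro z hz
    obtain ⟨k, hk, -⟩ := (hDmem z).1 hz
    exact hk.1.1
  · intro z hz1 hz2
    have hz : z ∈ Shell m := ⟨hz1, hz2⟩
    have hex : ∃ k, z ∈ G k := by
      obtain ⟨k, hk⟩ := hUcov z hz
      refine ⟨k, (hGmem k z).2 ⟨1, isUnit_one, ?_⟩⟩
      have : hac_lm (cR (1 : ZM m)) z = z := by
        funext i j
        change (cR (1 : ZM m) * mt z) i j = z i j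
        rw [xz_one, one_mul]
        rfl
      rw [this]
      exact hk
    have hspec := Nat.find_spec hex
    have hmin : ∀ j < Nat.find hex, z ∉ G j := fun j hj => Nat.find_min hex hj
    obtain ⟨γ, hγ, hγU⟩ := (hGmem _ z).1 hspec
    have hback : ∀ δ : ZM m, IsUnit δ → ∀ j, hac_lm (cR δ) z ∈ G j → z ∈ G j := by
      intro δ hδ j hj
      obtain ⟨τ, hτ, hτU⟩ := (hGmem j _).1 hj
      rw [hcomp] at hτU
      exact (hGmem j z).2 ⟨_, hτ.mul hδ, hτU⟩
    have hiv : ∀ δ : ZM m, IsUnit δ → ∃ δ' : ZM m, IsUnit δ' ∧ δ' * δ = 1 := by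
      rintro _ ⟨u, rfl⟩
      exact ⟨(u⁻¹ : (ZM m)ˣ), (u⁻¹).isUnit, u.inv_mul⟩
    refine ⟨γ, ⟨hγ, ?_⟩, ?_⟩
    · change hac_lm (cR γ) z ∈ D
      exact (hDmem _).2 ⟨_, hγU, fun j hj h => hmin j hj (hback γ hγ j h)⟩
    · rintro γ' ⟨hγ', hγ'D⟩
      obtain ⟨k', hk', hk'2⟩ := (hDmem _).1 (show hac_lm (cR γ') z ∈ D from hγ'D)
      have hfor : ∀ δ : ZM m, IsUnit δ → ∀ j, z ∈ G j → hac_lm (cR δ) z ∈ G j := by
        intro δ hδ j hj
        obtain ⟨τ, hτ, hτU⟩ := (hGmem j _).1 hj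
        obtain ⟨δ', hδ', e2⟩ := hiv δ hδ
        refine (hGmem j _).2 ⟨τ * δ', hτ.mul hδ', ?_⟩
        rw [hcomp, mul_assoc, e2, mul_one]
        exact hτU
      have hle : Nat.find hex ≤ k' := by
        refine Nat.find_min' hex ?_
        exact (hGmem k' z).2 ⟨γ', hγ', hk'⟩
      have hge : k' ≤ Nat.find hex := by
        by_contra h
        push Not at h
        exact hk'2 _ h (hfor γ' hγ' _ hspec)
      have hkk : k' = Nat.find hex := le_antisymm hge hle
      obtain ⟨δ', hδ', e2⟩ := hiv γ hγ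
      have h1 : γ' * δ' = 1 := by
        refine hUfree _ (hac_lm (cR γ) z) hγU (γ' * δ') ?_
        rw [hcomp, mul_assoc, e2, mul_one, ← hkk]
        exact hk'
      calc γ' = γ' * (δ' * γ) := by rw [e2, mul_one]
        _ = γ := by rw [← mul_assoc, h1, one_mul]

end Pool.Agent.H43.GZ
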