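import Pool.Agent.H34.GZ.Targets2

/-!
# Board gz (MP_52e316_nt), row EIZ: the forms are eigenfunctions of the operators `A_r`
-/

set_option autoImplicit false

namespace Pool.Agent.H43.GZ

open MeasureTheory Pool.Agent.H34.GM Pool.Agent.H34.GZ

private lemma ei_inv {m : ℕ} {γ : ZM m} (h : IsUnit γ) :
    IsUnit (Ring.inverse γ) ∧ γ * Ring.inverse γ = 1 ∧ Ring.inverse γ * γ = 1 :=
  ⟨h.ringInverse, Ring.mul_inverse_cancel _ h, Ring.inverse_mul_cancel _ h⟩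

private lemma ei_aN_pow {m : ℕ} (hm : 1 ≤ m) (z : Mat m) : aN z ^ m = |z.det| := by
  unfold aN
  rw [← Real.rpow_natCast, ← Real.rpow_mul (abs_nonneg _)]
  have h : (1 / (m : ℝ)) * (m : ℝ) = 1 := by
    have : (m : ℝ) ≠ 0 := by positivity
    field_simp
  rw [h, Real.rpow_one]

private lemma ei_aN_pos {m : ℕ} {z : Mat m} (hz : z.det ≠ 0) : 0 < aN z :=
  Real.rpow_pos_of_pos (abs_pos.mpr hz) _

private lemma ei_det {m : ℕ} (hm : 1 ≤ m) {r : ℝ} (hr : 0 < r) {z g : Mat m} (hz : z.det ≠ 0)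
    (hg : g.det ≠ 0) (α : Mat m) : |(kk r z α g).det| = (r ^ m)⁻¹ * |α.det| := by
  unfold kk
  rw [Matrix.det_smul, Fintype.card_fin, Matrix.det_mul, Matrix.det_mul, Matrix.det_nonsing_inv,
    Ring.inverse_eq_inv', abs_mul, abs_mul, abs_mul, abs_pow, abs_div, abs_mul, abs_inv,
    abs_inv, abs_of_pos hr, abs_of_pos (ei_aN_pos hz), abs_of_pos (ei_aN_pos hg), div_pow,
    mul_pow, ei_aN_pow hm, ei_aN_pow hm, inv_pow]
  have h1 : |z.det| ≠ 0 := abs_ne_zero.mpr hz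
  have h2 : |g.det| ≠ 0 := abs_ne_zero.mpr hg
  have h3 : r ^ m ≠ 0 := by positivity
  field_simp

private lemma ei_kk {m : ℕ} (r : ℝ) (z γ ρ g : Mat m) (hγ : |γ.det| = 1) :
    kk r (γ * z) ρ g = kk r z (γ⁻¹ * ρ) g := by
  unfold kk aN
  rw [Matrix.det_mul, abs_mul, hγ, one_mul, Matrix.mul_inv_rev]
  congr 1
  simp only [Matrix.mul_assoc]

private lemma ei_bd {m : ℕ} (z : Mat m) (c : ℝ) (hz : sz z ≤ c) :
    |z.det| ≤ (m.factorial : ℝ) * c ^ m := by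
  have h := Matrix.det_le (A := z) (abv := AbsoluteValue.abs) (x := c) (by
    intro i j
    have h1 : |z i j| ≤ sz z := by
      unfold sz
      have h2 := norm_le_pi_norm (f := ((fun i j => z i j) : V m)) i
      have h3 := norm_le_pi_norm (f := (fun j => z i j)) j
      exact le_trans h3 h2
    exact le_trans h1 hz)
  rw [Fintype.card_fin] at h
  simpa [nsmul_eq_mul] using h

/-- the sum over the integer matrices as a finite sum of sums over the units -/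
private lemma ei_sum {m : ℕ} {T : ℕ → Finset (ZM m)} (hT : RepsZ m T)
    (hun : ∀ γ : ZM m, IsUnit γ → γ.det.natAbs = 1) (N0 : ℕ) (t : ZM m → ℂ)
    (h0 : ∀ α : ZM m, α.det = 0 → t α = 0) (hN0 : ∀ α : ZM m, t α ≠ 0 → α.det.natAbs ≤ N0)
    (hs : ∀ n ∈ Finset.Icc 1 N0, ∀ ρ ∈ T n,
      Summable fun γ : {γ : ZM m // IsUnit γ} => t (Ring.inverse γ.1 * ρ)) :
    ∑' α : ZM m, t α = ∑ n ∈ Finset.Icc 1 N0, ∑ ρ ∈ T n,
      ∑' γ : {γ : ZM m // IsUnit γ}, t (Ring.inverse γ.1 * ρ) := by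
  classical
  set S : Finset (Σ _ : ℕ, ZM m) := (Finset.Icc 1 N0).sigma T with hS
  have hS1 : ∀ p : S, 1 ≤ p.1.1 ∧ p.1.1 ∈ Finset.Icc 1 N0 ∧ p.1.2 ∈ T p.1.1 := by
    intro p
    have h1 := Finset.mem_sigma.mp p.2
    exact ⟨(Finset.mem_Icc.mp h1.1).1, h1.1, h1.2⟩
  let f : S × {γ : ZM m // IsUnit γ} → ZM m := fun p => Ring.inverse p.2.1 * p.1.1.2
  have hdet : ∀ p : S × {γ : ZM m // IsUnit γ}, (f p).det.natAbs = p.1.1.1 := by
    intro p
    change (Ring.inverse p.2.1 * p.1.1.2).det.natAbs = p.1.1.1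
    rw [Matrix.det_mul, Int.natAbs_mul, hun _ (ei_inv p.2.2).1, one_mul]
    exact hT.mem _ (hS1 p.1).1 _ (hS1 p.1).2.2
  have hinj : Function.Injective f := by
    rintro ⟨⟨⟨n, ρ⟩, hp⟩, γ⟩ ⟨⟨⟨n', ρ'⟩, hp'⟩, γ'⟩ hff
    have hff1 : Ring.inverse γ.1 * ρ = Ring.inverse γ'.1 * ρ' := hff
    have hd := hdet ⟨⟨⟨n, ρ⟩, hp⟩, γ⟩
    have hd' := hdet ⟨⟨⟨n', ρ'⟩, hp'⟩, γ'⟩
    have hnn : n = n' := by
      rw [hff, hd'] at hd
      exact hd.symm
    subst hnn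
    obtain ⟨h1, h2, h3⟩ := hS1 ⟨⟨n, ρ⟩, hp⟩
    obtain ⟨h1', h2', h3'⟩ := hS1 ⟨⟨n, ρ'⟩, hp'⟩
    simp only at h1 h2 h3 h1' h2' h3'
    obtain ⟨α, -, hα⟩ := hT.uniq n h1 _ hd
    have e1 := hα ρ ⟨h3, Ring.inverse γ.1, (ei_inv γ.2).1, rfl⟩
    have e2 := hα ρ' ⟨h3', Ring.inverse γ'.1, (ei_inv γ'.2).1, hff1⟩
    have e3 : ρ = ρ' := e1.trans e2.symm
    subst e3
    have hρ : ρ.det ≠ 0 := by
      intro hz
      have h4 := hT.mem n h1 ρ h3
      rw [hz] at h4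
      simp only [Int.natAbs_zero] at h4
      omega
    have hgg : Ring.inverse γ.1 = Ring.inverse γ'.1 := by
      have h5 : Ring.inverse γ.1 * ρ * ρ.adjugate = Ring.inverse γ'.1 * ρ * ρ.adjugate := by
        rw [hff1]
      rw [Matrix.mul_assoc, Matrix.mul_assoc, Matrix.mul_adjugate, Matrix.mul_smul,
        Matrix.mul_smul, Matrix.mul_one, Matrix.mul_one] at h5
      exact smul_right_injective (ZM m) hρ h5
    have hgg2 : γ.1 = γ'.1 := by
      have a1 := ei_inv γ.2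
      have a2 := ei_inv γ'.2
      calc γ.1 = γ.1 * (Ring.inverse γ'.1 * γ'.1) := by rw [a2.2.2, mul_one]
        _ = γ.1 * (Ring.inverse γ.1 * γ'.1) := by rw [hgg]
        _ = (γ.1 * Ring.inverse γ.1) * γ'.1 := by rw [mul_assoc]
        _ = γ'.1 := by rw [a1.2.1, one_mul]
    have hgg3 : γ = γ' := Subtype.ext hgg2
    subst hgg3
    rfl
  have hsupp : Function.support t ⊆ Set.range f := by
    intro α hα
    have hα1 : t α ≠ 0 := hα
    have hα0 : α.det ≠ 0 := fun hz => hα1 (h0 α hz)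
    have hn1 : 1 ≤ α.det.natAbs := Nat.one_le_iff_ne_zero.2 (Int.natAbs_ne_zero.2 hα0)
    have hn4 := hN0 α hα1
    obtain ⟨ρ, ⟨hρ, γ, hγ, hγρ⟩, -⟩ := hT.uniq _ hn1 α rfl
    have hp : (⟨α.det.natAbs, ρ⟩ : Σ _ : ℕ, ZM m) ∈ S := by
      rw [hS, Finset.mem_sigma]
      exact ⟨Finset.mem_Icc.mpr ⟨hn1, hn4⟩, hρ⟩
    refine ⟨⟨⟨⟨α.det.natAbs, ρ⟩, hp⟩, ⟨Ring.inverse γ, (ei_inv hγ).1⟩⟩, ?_⟩
    change Ring.inverse (Ring.inverse γ) * ρ = α
    have h6 : Ring.inverse (Ring.inverse γ) = γ := by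
      have a1 := ei_inv hγ
      have a2 := ei_inv a1.1
      calc Ring.inverse (Ring.inverse γ) = Ring.inverse (Ring.inverse γ) *
            (Ring.inverse γ * γ) := by rw [a1.2.2, mul_one]
        _ = γ := by rw [← mul_assoc, a2.2.2, one_mul]
    rw [h6, hγρ]
  have h1 : ∑' p, t (f p) = ∑' α : ZM m, t α := hinj.tsum_eq hsupp
  rw [← h1]
  have hsm : Summable (fun p : S × {γ : ZM m // IsUnit γ} => t (f p)) := by
    apply Summable.of_norm
    rw [summable_prod_of_nonneg (fun _ => norm_nonneg _)]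
    refine ⟨fun p => (hs p.1.1 (hS1 p).2.1 _ (hS1 p).2.2).norm, ?_⟩
    exact (hasSum_fintype _).summable
  rw [hsm.tsum_prod, tsum_fintype, Finset.sum_sigma', ← hS]
  exact Finset.sum_coe_sort S
    (fun p => ∑' γ : {γ : ZM m // IsUnit γ}, t (Ring.inverse γ.1 * p.2))

/-- the truncated eigenvalue -/
private lemma ei_th {m q : ℕ} (hm1 : 1 ≤ m) {Φ : Mat m → ℂ} {mu : Fin m → ℂ} {lam : ℕ → ℂ}
    {r c1 : ℝ} (hr : 0 < r) (hc1 : 0 < c1)
    (hth : ∀ r : ℝ, 0 < r → th1 Φ mu r ≠ 0 → c1⁻¹ ≤ r ∧ r ≤ c1) {N0 : ℕ}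
    (hN : (c1 * r) ^ m < N0) :
    thF q Φ mu lam r = ∑ n ∈ Finset.Icc 1 N0, if n.Coprime q then
      (n : ℂ) ^ (((m : ℂ) - 1) / 2) * lam n * th1 Φ mu (r * (n : ℝ) ^ (-(1 / (m : ℝ)))) else 0 := by
  unfold thF
  rw [tsum_eq_sum (s := Finset.Icc 1 N0)]
  · apply Finset.sum_congr rfl
    intro n hn
    have h1 : 1 ≤ n := (Finset.mem_Icc.mp hn).1
    simp only [h1, true_and]
  · intro n hn
    by_cases h1 : 1 ≤ n ∧ n.Coprime q
    · rw [if_pos h1]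
      have hnN : N0 < n := by
        by_contra h2
        exact hn (Finset.mem_Icc.mpr ⟨h1.1, not_lt.mp h2⟩)
      have hn0 : (0 : ℝ) < n := by exact_mod_cast h1.1
      have hmz : (m : ℝ) ≠ 0 := by positivity
      have h3 : th1 Φ mu (r * (n : ℝ) ^ (-(1 / (m : ℝ)))) = 0 := by
        by_contra h4
        have hp : 0 < (n : ℝ) ^ (-(1 / (m : ℝ))) := Real.rpow_pos_of_pos hn0 _
        have h5 := (hth _ (mul_pos hr hp) h4).1
        have h6 : (n : ℝ) ^ (1 / (m : ℝ)) ≤ c1 * r := by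
          have hq : 0 < (n : ℝ) ^ (1 / (m : ℝ)) := Real.rpow_pos_of_pos hn0 _
          rw [Real.rpow_neg hn0.le] at h5
          rw [inv_le_iff_one_le_mul₀ hc1] at h5
          have h8 : r * ((n : ℝ) ^ (1 / (m : ℝ)))⁻¹ * c1 = c1 * r / (n : ℝ) ^ (1 / (m : ℝ)) := by
            rw [div_eq_mul_inv]; ring
          rw [h8, le_div_iff₀ hq, one_mul] at h5
          exact h5
        have h9 : (n : ℝ) ≤ (c1 * r) ^ m := by
          calc (n : ℝ) = ((n : ℝ) ^ (1 / (m : ℝ))) ^ m := by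
                rw [← Real.rpow_natCast, ← Real.rpow_mul hn0.le, one_div, inv_mul_cancel₀ hmz,
                  Real.rpow_one]
            _ ≤ (c1 * r) ^ m := pow_le_pow_left₀ (Real.rpow_nonneg hn0.le _) h6 m
        have h10 : (N0 : ℝ) < n := by exact_mod_cast hnN
        linarith
      rw [h3, mul_zero]
    · rw [if_neg h1]

theorem pf_EIZ : T_ALZ → T_UNZ → T_TH1 → T_EZ1 → T_EIZ := by
  intro hALZ hUNZ hTH1 hEZ1 m q _ T D hS F lam mu hF Φ hΦ g r x hg hr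
  have hm1 : 1 ≤ m := hS.one_le
  obtain ⟨⟨⟨hR1, hRm⟩, hRd⟩, ⟨-, -, hQm, -, -⟩, -, hQu, hun, hxy, -⟩ :=
    hALZ m q hm1 hS.two_le
  have hun1 : ∀ γ : ZM m, IsUnit γ → γ.det.natAbs = 1 := fun γ hγ => (hun γ).1 hγ
  have hUN := (hUNZ m hm1 D hS.dom).2
  obtain ⟨c1, hc1, hth, -⟩ := hTH1 m Φ mu hm1 hΦ hF.tr0
  obtain ⟨c0, hc0, hsup⟩ := hΦ.supp
  have hmz : (m : ℝ) ≠ 0 := by positivity
  obtain ⟨N0, hN0⟩ := exists_nat_gt
    (max (r ^ m * ((m.factorial : ℝ) * c0 ^ m)) ((c1 * r) ^ m))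
  have hN1 : r ^ m * ((m.factorial : ℝ) * c0 ^ m) < N0 := lt_of_le_of_lt (le_max_left _ _) hN0
  have hN2 : (c1 * r) ^ m < N0 := lt_of_le_of_lt (le_max_right _ _) hN0
  have hdm : ∀ z ∈ D, (mt z).det ≠ 0 := by
    intro z hz h0
    have h1 := (hS.dom.shell z hz).1
    unfold aN at h1
    rw [h0, abs_zero, Real.zero_rpow (one_div_ne_zero hmz)] at h1
    norm_num at h1
  have hT1 : ∀ n ∈ Finset.Icc 1 N0, ∀ ρ ∈ T n, 1 ≤ n ∧ ρ.det.natAbs = n ∧ (cR ρ).det ≠ 0 := by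
    intro n hn ρ hρ
    have h1 := (Finset.mem_Icc.mp hn).1
    have h2 := hS.reps.mem n h1 ρ hρ
    refine ⟨h1, h2, ?_⟩
    intro h3
    have h4 := (hRd ρ).2
    rw [h3, abs_zero, h2] at h4
    have h5 : (1 : ℝ) ≤ n := by exact_mod_cast h1
    linarith
  have hfi : ∀ n ∈ Finset.Icc 1 N0, ∀ ρ ∈ T n,
      IntegrableOn (fun z : V m => Φ (kk r (mt z) (cR ρ) g) * F (mt z) (cQ q ρ * x))
        (Shell m) (hm m) ∧
      ∫ z in Shell m, Φ (kk r (mt z) (cR ρ) g) * F (mt z) (cQ q ρ * x) ∂(hm m) =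
        th1 Φ mu (r * (n : ℝ) ^ (-(1 / (m : ℝ)))) * F (cR ρ * g) (cQ q ρ * x) := by
    intro n hn ρ hρ
    obtain ⟨h1, h3, h4⟩ := hT1 n hn ρ hρ
    have h5 := hEZ1 m q T D hS F lam mu hF Φ hΦ (cR ρ) g r (cQ q ρ * x) h4 hg hr
    refine ⟨h5.1, ?_⟩
    rw [h5.2]
    have h6 : (aN (cR ρ))⁻¹ = (n : ℝ) ^ (-(1 / (m : ℝ))) := by
      unfold aN
      rw [(hRd ρ).2, h3, Real.rpow_neg (Nat.cast_nonneg n)]
    rw [h6]
  have hae : ∀ᵐ z ∂((hm m).restrict D), ∀ n ∈ Finset.Icc 1 N0, ∀ ρ ∈ T n,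
      Summable fun γ : {γ : ZM m // IsUnit γ} =>
        Φ (kk r (mt (fun i j => (cR γ.1 * mt z) i j)) (cR ρ) g) *
          F (mt (fun i j => (cR γ.1 * mt z) i j)) (cQ q ρ * x) := by
    rw [Filter.eventually_all_finset]
    intro n hn
    rw [Filter.eventually_all_finset]
    intro ρ hρ
    exact (hUN _ (hfi n hn ρ hρ).1).2.1
  have hkey : ∀ᵐ z ∂((hm m).restrict D),
      ∑' α : ZM m, Φ (kk r (mt z) (cR α) g) * F (mt z) (cQ q α * x) =
      ∑ n ∈ Finset.Icc 1 N0, ∑ ρ ∈ T n, ∑' γ : {γ : ZM m // IsUnit γ},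
        Φ (kk r (mt (fun i j => (cR γ.1 * mt z) i j)) (cR ρ) g) *
          F (mt (fun i j => (cR γ.1 * mt z) i j)) (cQ q ρ * x) := by
    filter_upwards [hae, ae_restrict_mem hS.dom.meas] with z hz hzD
    have hzd := hdm z hzD
    have hpt : ∀ n ∈ Finset.Icc 1 N0, ∀ ρ ∈ T n, ∀ γ : {γ : ZM m // IsUnit γ},
        Φ (kk r (mt (fun i j => (cR γ.1 * mt z) i j)) (cR ρ) g) *
          F (mt (fun i j => (cR γ.1 * mt z) i j)) (cQ q ρ * x) =
        Φ (kk r (mt z) (cR (Ring.inverse γ.1 * ρ)) g) *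
          F (mt z) (cQ q (Ring.inverse γ.1 * ρ) * x) := by
      intro n hn ρ hρ γ
      have e1 : mt (fun i j => (cR γ.1 * mt z) i j) = cR γ.1 * mt z := rfl
      have hg1 := ei_inv γ.2
      have hdγ : |(cR γ.1).det| = 1 := by
        rw [(hRd γ.1).2, hun1 _ γ.2, Nat.cast_one]
      have e0 : (cR γ.1)⁻¹ = cR (Ring.inverse γ.1) := by
        apply Matrix.inv_eq_right_inv
        rw [← (hRm _ _).1, hg1.2.1, hR1]
      rw [e1, ei_kk r (mt z) (cR γ.1) (cR ρ) g hdγ, e0, ← (hRm _ _).1]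
      have e2 : cQ q ρ * x = cQ q γ.1 * (cQ q (Ring.inverse γ.1 * ρ) * x) := by
        rw [← mul_assoc, ← (hQm _ _).1, ← mul_assoc, hg1.2.1, one_mul]
      rw [e2, hF.auto _ γ.2 _ _ hzd]
    rw [ei_sum hS.reps hun1 N0
      (fun α => Φ (kk r (mt z) (cR α) g) * F (mt z) (cQ q α * x))]
    · apply Finset.sum_congr rfl
      intro n hn
      apply Finset.sum_congr rfl
      intro ρ hρ
      exact tsum_congr fun γ => (hpt n hn ρ hρ γ).symm
    · intro α hα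
      by_contra hne
      have h1 : Φ (kk r (mt z) (cR α) g) ≠ 0 := left_ne_zero_of_mul hne
      have h2 := (hsup _ h1).2
      rw [ei_det hm1 hr hzd hg, (hRd α).2, hα, Int.natAbs_zero, Nat.cast_zero, mul_zero] at h2
      have h3 : 0 < c0⁻¹ := inv_pos.mpr hc0
      linarith
    · intro α hne
      have h1 : Φ (kk r (mt z) (cR α) g) ≠ 0 := left_ne_zero_of_mul hne
      have h2 := ei_bd _ _ (hsup _ h1).1
      rw [ei_det hm1 hr hzd hg, (hRd α).2] at h2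
      have hrm : 0 < r ^ m := pow_pos hr m
      have h3 : (α.det.natAbs : ℝ) ≤ r ^ m * ((m.factorial : ℝ) * c0 ^ m) := by
        rw [inv_mul_le_iff₀ hrm] at h2
        exact h2
      exact_mod_cast h3.trans hN1.le
    · intro n hn ρ hρ
      refine (hz n hn ρ hρ).congr ?_
      intro γ
      exact hpt n hn ρ hρ γ
  unfold opAz
  rw [integral_congr_ae hkey, integral_finsetSum, ei_th hm1 hr hc1 hth hN2, Finset.sum_mul]
  · apply Finset.sum_congr rfl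
    intro n hn
    rw [integral_finsetSum]
    · have h1 : ∀ ρ ∈ T n, ∫ z in D, ∑' γ : {γ : ZM m // IsUnit γ},
          Φ (kk r (mt (fun i j => (cR γ.1 * mt z) i j)) (cR ρ) g) *
            F (mt (fun i j => (cR γ.1 * mt z) i j)) (cQ q ρ * x) ∂(hm m) =
          th1 Φ mu (r * (n : ℝ) ^ (-(1 / (m : ℝ)))) * F (cR ρ * g) (cQ q ρ * x) := by
        intro ρ hρ
        rw [← (hfi n hn ρ hρ).2]
        exact (hUN _ (hfi n hn ρ hρ).1).2.2.symm
      rw [Finset.sum_congr rfl h1, ← Finset.mul_sum]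
      by_cases hc : n.Coprime q
      · rw [if_pos hc, hF.hecke n (Finset.mem_Icc.mp hn).1 hc g x hg]
        ring
      · rw [if_neg hc, zero_mul]
        have h2 : ∑ ρ ∈ T n, F (cR ρ * g) (cQ q ρ * x) = 0 := by
          apply Finset.sum_eq_zero
          intro ρ hρ
          apply hF.supp
          intro hu
          have h3 := (hQu ρ).1 ((hxy _ _).1 hu).1
          rw [(hT1 n hn ρ hρ).2.1] at h3
          exact hc h3
        rw [h2, mul_zero]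
    · intro ρ hρ
      exact (hUN _ (hfi n hn ρ hρ).1).1
  · intro n hn
    apply integrable_finsetSum
    intro ρ hρ
    exact (hUN _ (hfi n hn ρ hρ).1).1

end Pool.Agent.H43.GZ
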